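import Mathlib

/-! Finitely strictly singular operators and singly generated closed ideals between sequence spaces. -/

namespace Pool.Agent.H996Z.FS

open scoped ENNReal

/-- the sequence space `ℓ_p` over the scalar field `𝕜` -/
abbrev ell (𝕜 : Type*) [RCLike 𝕜] (p : ℝ≥0∞) : Type _ := lp (fun _ : ℕ => 𝕜) p

/-- the finitely strictly singular operators from `ℓ_p` to `ℓ_q` -/
def FSS (𝕜 : Type*) [RCLike 𝕜] (p q : ℝ≥0∞) [Fact (1 ≤ p)] [Fact (1 ≤ q)] :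
    Set (ell 𝕜 p →L[𝕜] ell 𝕜 q) :=
  {T | ∀ ε : ℝ, 0 < ε → ∃ n : ℕ, ∀ E : Submodule 𝕜 (ell 𝕜 p), (n : Cardinal) ≤ Module.rank 𝕜 E →
    ∃ x ∈ E, x ≠ 0 ∧ ‖T x‖ ≤ ε * ‖x‖}

/-- the closed ideal generated by `T`: the norm closure of the finite sums `∑ A_i T B_i` -/
def genIdeal {𝕜 : Type*} [RCLike 𝕜] {p q : ℝ≥0∞} [Fact (1 ≤ p)] [Fact (1 ≤ q)]
    (T : ell 𝕜 p →L[𝕜] ell 𝕜 q) : Set (ell 𝕜 p →L[𝕜] ell 𝕜 q) :=
  closure {S | ∃ (n : ℕ) (A : Fin n → (ell 𝕜 q →L[𝕜] ell 𝕜 q))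
    (B : Fin n → (ell 𝕜 p →L[𝕜] ell 𝕜 p)), S = ∑ i, (A i).comp (T.comp (B i))}

end Pool.Agent.H996Z.FS
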