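import Mathlib

/-! Two finite-dimensional lemmas: flat vectors, and Hilbert-Schmidt norms from Bernstein numbers. -/

namespace Pool.Agent.H996Z.FS

open Finset

variable {𝕜 : Type*} [RCLike 𝕜]

/-- flat vectors in large subspaces -/
lemma exists_flat {X : Type*} [NormedAddCommGroup X] [NormedSpace 𝕜 X] {I : Type*}
    (A : I → X →ₗ[𝕜] 𝕜) {C : ℝ} (hC : 0 < C) (hA : ∀ i y, ‖A i y‖ ≤ C * ‖y‖) {lam : ℝ}
    (hl : 0 < lam) {n : ℕ}
    (hn : ∀ y : X, ‖y‖ ≤ 1 → ∀ F : Finset I, (∀ i ∈ F, lam / 2 ≤ ‖A i y‖) → F.card < n)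
    (E : Submodule 𝕜 X) (hE : (n : Cardinal) ≤ Module.rank 𝕜 E) :
    ∃ y ∈ E, y ≠ 0 ∧ ∀ i, ‖A i y‖ ≤ lam * ‖y‖ := by
  classical
  by_contra hcon
  push Not at hcon
  obtain ⟨v, hv⟩ := exists_linearIndependent_of_le_rank hE
  let φ : EuclideanSpace 𝕜 (Fin n) →ₗ[𝕜] X :=
    E.subtype ∘ₗ Fintype.linearCombination 𝕜 v ∘ₗ (WithLp.linearEquiv 2 𝕜 (Fin n → 𝕜)).toLinearMap
  have hφE : ∀ c, φ c ∈ E := fun c => (Fintype.linearCombination 𝕜 v _).2
  have hφi : LinearMap.ker φ = ⊥ := by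
    rw [LinearMap.ker_eq_bot]
    exact Subtype.val_injective.comp ((hv.fintypeLinearCombination_injective).comp
      (WithLp.linearEquiv 2 𝕜 (Fin n → 𝕜)).injective)
  obtain ⟨κ, hκ0, hκ⟩ := LinearMap.exists_antilipschitzWith φ hφi
  let K : Set (EuclideanSpace 𝕜 (Fin n)) := {c | ∀ i, ‖A i (φ c)‖ ≤ lam}
  have hK1 : ∀ c ∈ K, ‖φ c‖ ≤ 1 := by
    intro c hc
    by_cases h0 : φ c = 0
    · simp [h0]
    · obtain ⟨i, hi⟩ := hcon (φ c) (hφE c) h0
      have := hc i
      nlinarith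
  have hKc : IsCompact K := by
    apply Metric.isCompact_of_isClosed_isBounded
    · have : K = ⋂ i, {c | ‖A i (φ c)‖ ≤ lam} := by ext c; simp [K]
      rw [this]
      refine isClosed_iInter fun i => isClosed_le ?_ continuous_const
      exact ((A i ∘ₗ φ).continuous_of_finiteDimensional).norm
    · rw [Metric.isBounded_iff_subset_closedBall 0]
      refine ⟨κ, fun c hc => ?_⟩
      have h1 := hκ.le_mul_dist c 0
      simp only [dist_zero_right, map_zero] at h1
      have h2 := hK1 c hc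
      have h3 : (0 : ℝ) ≤ κ := κ.2
      rw [mem_closedBall_zero_iff]
      nlinarith
  obtain ⟨c, hc, hmax⟩ := hKc.exists_isMaxOn ⟨0, fun i => by simp [hl.le]⟩
    continuous_norm.continuousOn
  have hfin : {i | lam / 2 ≤ ‖A i (φ c)‖}.Finite := by
    by_contra hinf
    obtain ⟨F, hF, hcard⟩ := Set.Infinite.exists_subset_card_eq hinf n
    have := hn (φ c) (hK1 c hc) F (fun i hi => hF hi)
    omega
  set F := hfin.toFinset with hF
  have hFc : F.card < n := hn (φ c) (hK1 c hc) F (fun i hi => by simpa [hF] using hi)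
  let ψ : EuclideanSpace 𝕜 (Fin n) →ₗ[𝕜] (F → 𝕜) := LinearMap.pi fun i => A i ∘ₗ φ
  have hker : LinearMap.ker ψ ≠ ⊥ := by
    apply LinearMap.ker_ne_bot_of_finrank_lt
    simpa using hFc
  obtain ⟨b, hb, hb0⟩ := Submodule.exists_mem_ne_zero_of_ne_bot hker
  have hbF : ∀ i ∈ F, A i (φ b) = 0 := fun i hi => congrFun (LinearMap.mem_ker.1 hb) ⟨i, hi⟩
  set t : ℝ := lam / 2 / (C * (‖φ b‖ + 1)) with ht
  have ht0 : 0 < t := by positivity
  have hmem : ∀ u : 𝕜, ‖u‖ = t → c + u • b ∈ K := by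
    intro u hu i
    rw [map_add, map_add, map_smul, map_smul]
    by_cases hi : i ∈ F
    · rw [hbF i hi]; simpa using hc i
    · have h1 : ‖A i (φ c)‖ < lam / 2 := by simpa [hF] using hi
      have h2 : ‖u • A i (φ b)‖ ≤ lam / 2 := by
        rw [norm_smul, hu]
        have h3 := hA i (φ b)
        have h4 : t * (C * (‖φ b‖ + 1)) = lam / 2 := by rw [ht]; field_simp
        nlinarith
      exact (norm_add_le _ _).trans (by linarith)
  have h1 := hmax (hmem (t : 𝕜) (by simp [ht0.le]))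
  have h2 := hmax (hmem (-(t : 𝕜)) (by simp [ht0.le]))
  simp only [Set.mem_ofPred_eq, neg_smul, ← sub_eq_add_neg] at h1 h2
  have h3 := parallelogram_law_with_norm 𝕜 c ((t : 𝕜) • b)
  have h4 : 0 < ‖(t : 𝕜) • b‖ := by
    rw [norm_pos_iff]
    exact smul_ne_zero (by exact_mod_cast ht0.ne') hb0
  have h5 := norm_nonneg (c + (t : 𝕜) • b)
  have h6 := norm_nonneg (c - (t : 𝕜) • b)
  nlinarith

/-- Hilbert-Schmidt bound from a Bernstein-type bound -/
lemma hs_bound {N : ℕ} (H : EuclideanSpace 𝕜 (Fin N) →ₗ[𝕜] EuclideanSpace 𝕜 (Fin N)) {K ε : ℝ}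
    (hε : 0 ≤ ε) (hK : ∀ x, ‖H x‖ ≤ K * ‖x‖) {n : ℕ}
    (hn : ∀ E : Submodule 𝕜 (EuclideanSpace 𝕜 (Fin N)), (n : Cardinal) ≤ Module.rank 𝕜 E →
      ∃ x ∈ E, x ≠ 0 ∧ ‖H x‖ ≤ ε * ‖x‖) :
    ∑ j, ‖H (EuclideanSpace.single j 1)‖ ^ 2 ≤ n * K ^ 2 + N * ε ^ 2 := by
  classical
  have hQ : (LinearMap.adjoint H * H).IsSymmetric := LinearMap.isSymmetric_adjoint_mul_self H
  have hN : Module.finrank 𝕜 (EuclideanSpace 𝕜 (Fin N)) = N := by simp
  set b := hQ.eigenvectorBasis hN with hb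
  set ev := hQ.eigenvalues hN with hev
  have hform : ∀ x, ‖H x‖ ^ 2 = ∑ i, ev i * ‖b.repr x i‖ ^ 2 := by
    intro x
    have h1 : (inner 𝕜 (H x) (H x) : 𝕜) = inner 𝕜 x ((LinearMap.adjoint H * H) x) := by
      rw [Module.End.mul_apply, LinearMap.adjoint_inner_right]
    rw [inner_self_eq_norm_sq_to_K, ← b.repr.inner_map_map, PiLp.inner_apply] at h1
    have h2 : ∀ i, (inner 𝕜 (b.repr x i) (b.repr ((LinearMap.adjoint H * H) x) i) : 𝕜) =
        ((ev i * ‖b.repr x i‖ ^ 2 : ℝ) : 𝕜) := by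
      intro i
      rw [hQ.eigenvectorBasis_apply_self_apply hN x i, RCLike.inner_apply, mul_assoc,
        RCLike.mul_conj]
      push_cast; rfl
    rw [Finset.sum_congr rfl fun i _ => h2 i] at h1
    exact_mod_cast h1
  have hnorm : ∀ x, ‖x‖ ^ 2 = ∑ i, ‖b.repr x i‖ ^ 2 := by
    intro x
    rw [← b.repr.norm_map x, EuclideanSpace.norm_sq_eq]
  have hsum : ∑ j, ‖H (EuclideanSpace.single j 1)‖ ^ 2 = ∑ i, ev i := by
    simp_rw [hform]
    rw [Finset.sum_comm]
    refine Finset.sum_congr rfl fun i _ => ?_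
    rw [← Finset.mul_sum]
    have h1 : ∑ j, ‖b.repr (EuclideanSpace.single j (1 : 𝕜)) i‖ ^ 2 = 1 := by
      have h2 : ‖b i‖ ^ 2 = 1 := by rw [b.orthonormal.1 i]; norm_num
      rw [EuclideanSpace.norm_sq_eq] at h2
      rw [← h2]
      refine Finset.sum_congr rfl fun j _ => ?_
      rw [b.repr_apply_apply, EuclideanSpace.inner_single_right]
      simp
    rw [h1, mul_one]
  have hevK : ∀ i, ev i ≤ K ^ 2 := by
    intro i
    have h1 := hform (b i)
    have h2 : ∑ l, ev l * ‖b.repr (b i) l‖ ^ 2 = ev i := by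
      rw [b.repr_self, Finset.sum_eq_single i]
      · simp
      · intro l _ hl; simp [hl]
      · simp
    have h3 := hK (b i)
    rw [b.orthonormal.1 i, mul_one] at h3
    rw [← h2, ← h1]
    exact pow_le_pow_left₀ (norm_nonneg _) h3 2
  set G : Finset (Fin N) := Finset.univ.filter fun i => ε ^ 2 < ev i with hG
  have hGc : G.card ≤ n := by
    by_contra hlt
    push Not at hlt
    let E : Submodule 𝕜 (EuclideanSpace 𝕜 (Fin N)) :=
      Submodule.span 𝕜 (Set.range fun i : G => b i)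
    have hli : LinearIndependent 𝕜 fun i : G => b i :=
      b.orthonormal.linearIndependent.comp _ Subtype.val_injective
    have hrank : (n : Cardinal) ≤ Module.rank 𝕜 E := by
      rw [← Module.finrank_eq_rank, finrank_span_eq_card hli]
      simpa using hlt.le
    obtain ⟨x, hxE, hx0, hx⟩ := hn E hrank
    have hoff : ∀ i, i ∉ G → b.repr x i = 0 := by
      intro i hi
      obtain ⟨c, rfl⟩ := (Submodule.mem_span_range_iff_exists_fun 𝕜).1 hxE
      rw [map_sum]
      simp only [map_smul, b.repr_self, WithLp.ofLp_sum, WithLp.ofLp_smul, Finset.sum_apply,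
        Pi.smul_apply]
      refine Finset.sum_eq_zero fun l _ => ?_
      have : i ≠ l := fun h => hi (h ▸ l.2)
      simp [this]
    have h1 : ‖H x‖ ^ 2 ≤ ε ^ 2 * ‖x‖ ^ 2 := by
      rw [← mul_pow]; exact pow_le_pow_left₀ (norm_nonneg _) hx 2
    rw [hform, hnorm, Finset.mul_sum] at h1
    obtain ⟨i0, hi0⟩ : ∃ i, b.repr x i ≠ 0 := by
      by_contra h
      push Not at h
      apply hx0
      apply b.repr.injective
      ext i; simp [h i]
    refine absurd h1 (not_le.2 (Finset.sum_lt_sum (fun i _ => ?_) ⟨i0, Finset.mem_univ _, ?_⟩))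
    · by_cases hi : i ∈ G
      · have : ε ^ 2 < ev i := by simpa [hG] using hi
        exact mul_le_mul_of_nonneg_right this.le (sq_nonneg _)
      · simp [hoff i hi]
    · have hi : i0 ∈ G := by
        by_contra h; exact hi0 (hoff i0 h)
      have : ε ^ 2 < ev i0 := by simpa [hG] using hi
      exact mul_lt_mul_of_pos_right this (by positivity)
  rw [hsum, ← Finset.sum_filter_add_sum_filter_not Finset.univ (fun i => ε ^ 2 < ev i)]
  have h1 : ∑ i ∈ G, ev i ≤ n * K ^ 2 := by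
    refine (Finset.sum_le_card_nsmul _ _ _ fun i _ => hevK i).trans ?_
    rw [nsmul_eq_mul]
    exact mul_le_mul_of_nonneg_right (by exact_mod_cast hGc) (sq_nonneg _)
  have h2 : ∑ i ∈ Finset.univ.filter (fun i => ¬ ε ^ 2 < ev i), ev i ≤ N * ε ^ 2 := by
    refine (Finset.sum_le_card_nsmul _ _ (ε ^ 2) fun i hi => by simpa using hi).trans ?_
    rw [nsmul_eq_mul]
    refine mul_le_mul_of_nonneg_right ?_ (sq_nonneg _)
    have := Finset.card_filter_le (Finset.univ : Finset (Fin N)) (fun i => ¬ ε ^ 2 < ev i)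
    simp only [Finset.card_univ, Fintype.card_fin] at this
    exact_mod_cast this
  linarith

end Pool.Agent.H996Z.FS
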