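import Pool.Agent.H996Z.FS.Prob

/-! Synthesis and analysis operators between Euclidean spaces and finite sequence spaces. -/

namespace Pool.Agent.H996Z.FS

open Finset

variable {𝕜 : Type*} [RCLike 𝕜]

/-- the finite `s`-norm -/
noncomputable def nn {Ω : Type*} [Fintype Ω] (s : ℝ) (v : Ω → 𝕜) : ℝ :=
  (∑ ω, ‖v ω‖ ^ s) ^ (1 / s)

lemma nn_nonneg {Ω : Type*} [Fintype Ω] (s : ℝ) (v : Ω → 𝕜) : 0 ≤ nn s v := by
  unfold nn; positivity

lemma nn_rpow {Ω : Type*} [Fintype Ω] {s : ℝ} (hs : 0 < s) (v : Ω → 𝕜) :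
    nn s v ^ s = ∑ ω, ‖v ω‖ ^ s := by
  unfold nn
  rw [← Real.rpow_mul (by positivity), one_div_mul_cancel hs.ne', Real.rpow_one]

lemma nn_smul {Ω : Type*} [Fintype Ω] {s : ℝ} (hs : 0 < s) (c : 𝕜) (v : Ω → 𝕜) :
    nn s (c • v) = ‖c‖ * nn s v := by
  unfold nn
  simp only [Pi.smul_apply, norm_smul]
  simp_rw [Real.mul_rpow (norm_nonneg _) (norm_nonneg _)]
  rw [← Finset.mul_sum, Real.mul_rpow (by positivity) (by positivity),
    ← Real.rpow_mul (norm_nonneg _), mul_one_div_cancel hs.ne', Real.rpow_one]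

lemma holder {Ω : Type*} [Fintype Ω] {s s' : ℝ} (h : s.HolderConjugate s') (y z : Ω → 𝕜) :
    ‖∑ ω, y ω * z ω‖ ≤ nn s y * nn s' z := by
  refine (norm_sum_le _ _).trans ?_
  simp_rw [norm_mul]
  exact Real.inner_le_Lp_mul_Lq_of_nonneg Finset.univ h (fun _ _ => norm_nonneg _)
    (fun _ _ => norm_nonneg _)

/-- synthesis -/
noncomputable def syn (s : ℝ) (N L : ℕ) : EuclideanSpace 𝕜 (Fin N) →ₗ[𝕜] (Om N L → 𝕜) where
  toFun a := fun ω => ((DD N L ^ (-(1 / s)) : ℝ) : 𝕜) * ∑ j, a j * (sg (ω j) : 𝕜)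
  map_add' a b := by
    ext ω; simp [add_mul, Finset.sum_add_distrib, mul_add]
  map_smul' c a := by
    ext ω; simp [Finset.mul_sum, mul_assoc, mul_left_comm]

/-- analysis -/
noncomputable def ana (s : ℝ) (N L : ℕ) : (Om N L → 𝕜) →ₗ[𝕜] EuclideanSpace 𝕜 (Fin N) where
  toFun y := WithLp.toLp 2 fun j => ((DD N L ^ (1 / s - 1) : ℝ) : 𝕜) * ∑ ω, y ω * (sg (ω j) : 𝕜)
  map_add' a b := by
    ext j; simp [add_mul, Finset.sum_add_distrib, mul_add]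
  map_smul' c a := by
    ext j; simp [Finset.mul_sum, mul_assoc, mul_left_comm]

lemma syn_apply (s : ℝ) (N L : ℕ) (a : EuclideanSpace 𝕜 (Fin N)) (ω : Om N L) :
    syn s N L a ω = ((DD N L ^ (-(1 / s)) : ℝ) : 𝕜) * ∑ j, a j * (sg (ω j) : 𝕜) := rfl

lemma ana_apply (s : ℝ) (N L : ℕ) (y : Om N L → 𝕜) (j : Fin N) :
    ana s N L y j = ((DD N L ^ (1 / s - 1) : ℝ) : 𝕜) * ∑ ω, y ω * (sg (ω j) : 𝕜) := rfl

lemma ana_syn (s : ℝ) (N L : ℕ) (a : EuclideanSpace 𝕜 (Fin N)) : ana s N L (syn s N L a) = a := by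
  classical
  ext j
  rw [ana_apply]
  simp_rw [syn_apply, mul_assoc, ← Finset.mul_sum, Finset.sum_mul]
  rw [Finset.sum_comm]
  have h1 : ∀ i : Fin N, ∑ ω : Om N L, a i * (sg (ω i) : 𝕜) * (sg (ω j) : 𝕜) =
      a i * ((if i = j then DD N L else 0 : ℝ) : 𝕜) := by
    intro i
    rw [← orth (L := L) i j]
    push_cast
    rw [Finset.mul_sum]
    exact Finset.sum_congr rfl fun ω _ => by ring
  simp_rw [h1]
  rw [Finset.sum_eq_single j (fun i _ hi => by simp [hi]) (by simp), if_pos rfl]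
  have h2 : DD N L ^ (1 / s - 1) * DD N L ^ (-(1 / s)) * DD N L = 1 := by
    have hD := DD_pos N L
    rw [← Real.rpow_add hD, ← Real.rpow_add_one hD.ne',
      show 1 / s - 1 + -(1 / s) + 1 = 0 by ring, Real.rpow_zero]
  have h3 : ((DD N L ^ (1 / s - 1) : ℝ) : 𝕜) * ((DD N L ^ (-(1 / s)) : ℝ) : 𝕜) * (DD N L : 𝕜) = 1 := by
    exact_mod_cast congrArg (fun x : ℝ => (x : 𝕜)) h2
  linear_combination (a j) * h3

lemma nn_syn_rpow {s : ℝ} (hs : 0 < s) (N L : ℕ) (a : EuclideanSpace 𝕜 (Fin N)) :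
    nn s (syn s N L a) ^ s = (∑ ω : Om N L, ‖∑ j, a j * (sg (ω j) : 𝕜)‖ ^ s) / DD N L := by
  have hD := DD_pos N L
  rw [nn_rpow hs, Finset.sum_div]
  refine Finset.sum_congr rfl fun ω _ => ?_
  rw [syn_apply, norm_mul, Real.mul_rpow (norm_nonneg _) (norm_nonneg _), RCLike.norm_ofReal,
    abs_of_nonneg (by positivity), ← Real.rpow_mul hD.le, neg_mul, one_div_mul_cancel hs.ne',
    Real.rpow_neg_one]
  ring

lemma nn_syn_le_one {s K : ℝ} (hs : 0 < s) (hK : 0 ≤ K) (N L : ℕ) (a : EuclideanSpace 𝕜 (Fin N))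
    (h : ∑ ω : Om N L, ‖∑ j, a j * (sg (ω j) : 𝕜)‖ ^ s ≤ DD N L * K) :
    nn s (syn s N L a) ≤ K ^ (1 / s) := by
  have hD := DD_pos N L
  rw [← Real.rpow_le_rpow_iff (nn_nonneg _ _) (by positivity) hs, nn_syn_rpow hs,
    ← Real.rpow_mul hK, one_div_mul_cancel hs.ne', Real.rpow_one, div_le_iff₀ hD]
  linarith

lemma nn_syn_single {s : ℝ} (hs : 0 < s) (N L : ℕ) (j : Fin N) :
    nn s (syn s N L (EuclideanSpace.single j (1 : 𝕜))) ≤ 1 := by
  classical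
  have := nn_syn_le_one hs zero_le_one N L (EuclideanSpace.single j (1 : 𝕜)) (by
    have h1 : ∀ ω : Om N L, ‖∑ i, (EuclideanSpace.single j (1 : 𝕜)) i * (sg (ω i) : 𝕜)‖ ^ s =
        sg (ω j) * sg (ω j) := by
      intro ω
      rw [Finset.sum_eq_single j (fun i _ hi => by simp [hi]) (by simp)]
      simp [abs_sg_rpow _ hs]
    simp_rw [h1, orth]
    simp)
  simpa using this

lemma nn_syn_le {s K : ℝ} (hs : 0 < s) (hK : 0 ≤ K) (N L : ℕ)
    (h : ∀ a : Fin N → 𝕜, ∑ j, ‖a j‖ ^ 2 ≤ 1 →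
      ∑ ω : Om N L, ‖∑ j, a j * (sg (ω j) : 𝕜)‖ ^ s ≤ DD N L * K) (a : EuclideanSpace 𝕜 (Fin N)) :
    nn s (syn s N L a) ≤ K ^ (1 / s) * ‖a‖ := by
  by_cases ha : a = 0
  · subst ha
    have := nn_smul hs (0 : 𝕜) (syn s N L (0 : EuclideanSpace 𝕜 (Fin N)))
    simp only [zero_smul, norm_zero, zero_mul] at this
    simp [this]
  · have hn : 0 < ‖a‖ := norm_pos_iff.2 ha
    set b : EuclideanSpace 𝕜 (Fin N) := ((‖a‖⁻¹ : ℝ) : 𝕜) • a with hb
    have hb1 : ‖b‖ = 1 := by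
      rw [hb, norm_smul, RCLike.norm_ofReal, abs_of_pos (by positivity)]; field_simp
    have hab : a = ((‖a‖ : ℝ) : 𝕜) • b := by
      rw [hb, smul_smul, ← RCLike.ofReal_mul, mul_inv_cancel₀ hn.ne']; simp
    have h1 := nn_syn_le_one hs hK N L b (h _ (by rw [← EuclideanSpace.norm_sq_eq, hb1]; norm_num))
    conv_lhs => rw [hab, map_smul, nn_smul hs, RCLike.norm_ofReal, abs_of_pos hn]
    nlinarith

lemma pairing {s s' : ℝ} (h : s.HolderConjugate s') (N L : ℕ) (y : Om N L → 𝕜)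
    (a : EuclideanSpace 𝕜 (Fin N)) :
    ‖∑ j, a j * ana s N L y j‖ ≤ nn s y * nn s' (syn s' N L a) := by
  have h1 : 1 / s - 1 = -(1 / s') := by
    have := h.inv_add_inv_eq_one
    simp only [one_div]; linarith
  have h2 : ∑ j, a j * ana s N L y j = ∑ ω, y ω * syn s' N L a ω := by
    simp_rw [ana_apply, syn_apply, h1, Finset.mul_sum]
    rw [Finset.sum_comm]
    exact Finset.sum_congr rfl fun ω _ => Finset.sum_congr rfl fun j _ => by ring
  rw [h2]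
  exact holder h _ _

lemma ana_coord_le {s s' : ℝ} (h : s.HolderConjugate s') (N L : ℕ) (y : Om N L → 𝕜) (j : Fin N) :
    ‖ana s N L y j‖ ≤ nn s y := by
  classical
  have h1 := pairing h N L y (EuclideanSpace.single j (1 : 𝕜))
  rw [Finset.sum_eq_single j (fun i _ hi => by simp [hi]) (by simp)] at h1
  have h2 := nn_syn_single (𝕜 := 𝕜) h.symm.pos N L j
  have h3 := nn_nonneg s y
  simp only [PiLp.single_apply, if_true, one_mul] at h1
  nlinarith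

/-- the conjugate vector -/
noncomputable def cj {N : ℕ} (a : EuclideanSpace 𝕜 (Fin N)) : EuclideanSpace 𝕜 (Fin N) :=
  WithLp.toLp 2 fun j => (starRingEnd 𝕜) (a j)

lemma norm_cj_apply {N : ℕ} (a : EuclideanSpace 𝕜 (Fin N)) (j : Fin N) : ‖cj a j‖ = ‖a j‖ := by
  simp [cj]

lemma norm_cj {N : ℕ} (a : EuclideanSpace 𝕜 (Fin N)) : ‖cj a‖ = ‖a‖ := by
  rw [EuclideanSpace.norm_eq, EuclideanSpace.norm_eq]
  simp_rw [norm_cj_apply]

lemma ana_sq_le {s s' : ℝ} (h : s.HolderConjugate s') (N L : ℕ) (y : Om N L → 𝕜) :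
    ‖ana s N L y‖ ^ 2 ≤ nn s y * nn s' (syn s' N L (cj (ana s N L y))) := by
  have h1 := pairing h N L y (cj (ana s N L y))
  have h2 : ∑ j, cj (ana s N L y) j * ana s N L y j = ((‖ana s N L y‖ ^ 2 : ℝ) : 𝕜) := by
    rw [EuclideanSpace.norm_sq_eq]
    push_cast
    refine Finset.sum_congr rfl fun j _ => ?_
    simp only [cj]
    rw [RCLike.conj_mul]
  rwa [h2, RCLike.norm_ofReal, abs_of_nonneg (sq_nonneg _)] at h1

lemma ana_le {s s' c : ℝ} (h : s.HolderConjugate s') (hc : 0 ≤ c) (N L : ℕ)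
    (hs : ∀ a : EuclideanSpace 𝕜 (Fin N), nn s' (syn s' N L a) ≤ c * ‖a‖) (y : Om N L → 𝕜) :
    ‖ana s N L y‖ ≤ c * nn s y := by
  have h1 := ana_sq_le h N L y
  have h2 := hs (cj (ana s N L y))
  rw [norm_cj] at h2
  have h3 := nn_nonneg s y
  rcases (norm_nonneg (ana s N L y)).eq_or_lt with h4 | h4
  · rw [← h4]; positivity
  · have h5 := mul_le_mul_of_nonneg_left h2 h3
    by_contra h6
    push Not at h6
    nlinarith

lemma syn_all {s : ℝ} (hs : 0 < s) : ∃ c : ℕ → ℝ, (∀ L, 0 < c L) ∧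
    ∀ (N L : ℕ) (a : EuclideanSpace 𝕜 (Fin N)), nn s (syn s N L a) ≤ c L * ‖a‖ := by
  obtain ⟨K, hK, h⟩ := bound_all (𝕜 := 𝕜) hs
  exact ⟨fun L => (K * (L + 1)) ^ (1 / s), fun L => by positivity,
    fun N L a => nn_syn_le hs (by positivity) N L (h N L) a⟩

lemma syn_big {s : ℝ} (hs : 2 ≤ s) : ∃ c : ℝ, 0 < c ∧
    ∀ (N L : ℕ) (a : EuclideanSpace 𝕜 (Fin N)), nn s (syn s N L a) ≤ c * ‖a‖ := by
  obtain ⟨K, hK, h⟩ := bound_big (𝕜 := 𝕜) hs
  exact ⟨K ^ (1 / s), by positivity,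
    fun N L a => nn_syn_le (by linarith) hK.le N L (h N L) a⟩

lemma syn_flat {s : ℝ} (hs : 2 < s) {R ε : ℝ} (hR : 0 < R) (hε : 0 < ε) :
    ∃ lam : ℝ, 0 < lam ∧ ∀ (N L : ℕ) (a : EuclideanSpace 𝕜 (Fin N)), 1 / ((L : ℝ) + 1) ≤ lam →
      ‖a‖ ≤ R → (∀ j, ‖a j‖ ≤ lam) → nn s (syn s N L a) ≤ ε := by
  have hs0 : 0 < s := by linarith
  obtain ⟨lam, hl, h⟩ := bound_flat (𝕜 := 𝕜) hs (ε := (ε / R) ^ s) (by positivity)
  refine ⟨min lam (lam * R), by positivity, fun N L a hL ha hf => ?_⟩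
  set b : EuclideanSpace 𝕜 (Fin N) := ((R⁻¹ : ℝ) : 𝕜) • a with hb
  have hb1 : ‖b‖ ≤ 1 := by
    rw [hb, norm_smul, RCLike.norm_ofReal, abs_of_pos (by positivity), inv_mul_le_iff₀ hR]
    linarith
  have hab : a = ((R : ℝ) : 𝕜) • b := by
    rw [hb, smul_smul, ← RCLike.ofReal_mul, mul_inv_cancel₀ hR.ne']; simp
  have h1 := nn_syn_le_one hs0 (by positivity) N L b (h N L b (hL.trans (min_le_left _ _))
    (by rw [← EuclideanSpace.norm_sq_eq]; nlinarith [norm_nonneg b]) (fun j => by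
      have h2 := (hf j).trans (min_le_right _ _)
      simp only [hb, PiLp.smul_apply, norm_smul, RCLike.norm_ofReal]
      rw [abs_of_pos (by positivity), inv_mul_le_iff₀ hR]
      linarith))
  rw [← Real.rpow_mul (by positivity), mul_one_div_cancel hs0.ne', Real.rpow_one,
    le_div_iff₀ hR] at h1
  rw [hab, map_smul, nn_smul hs0, RCLike.norm_ofReal, abs_of_pos hR]
  linarith

/-- the block systems: uniform bounds and smallness on flat vectors -/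
lemma exists_system {p q p' : ℝ} (hp : p.HolderConjugate p') (hpq : p < q) :
    ∃ (Ll Lr : ℕ → ℕ) (C : ℝ), 0 < C ∧
      (∀ (N k : ℕ) (y : Om N (Ll k) → 𝕜), ‖ana p N (Ll k) y‖ ≤ C * nn p y) ∧
      (∀ (N k : ℕ) (a : EuclideanSpace 𝕜 (Fin N)), nn q (syn q N (Lr k) a) ≤ C * ‖a‖) ∧
      ∀ ε : ℝ, 0 < ε → ∃ lam : ℝ, 0 < lam ∧ ∃ k0 : ℕ, ∀ (N k : ℕ), k0 ≤ k →
        ∀ y : Om N (Ll k) → 𝕜, nn p y ≤ 1 → (∀ j, ‖ana p N (Ll k) y j‖ ≤ lam) →
          nn q (syn q N (Lr k) (ana p N (Ll k) y)) ≤ ε := by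
  have hq0 : 0 < q := hp.pos.trans hpq
  have hk : ∀ lam : ℝ, 0 < lam → ∃ k0 : ℕ, ∀ k : ℕ, k0 ≤ k → 1 / ((k : ℝ) + 1) ≤ lam := by
    intro lam hl
    obtain ⟨k0, hk0⟩ := exists_nat_one_div_lt hl
    exact ⟨k0, fun k hk => (Nat.one_div_le_one_div hk).trans hk0.le⟩
  rcases lt_or_ge 2 q with h2 | h2
  · obtain ⟨c, hc0, hc⟩ := syn_all (𝕜 := 𝕜) hp.symm.pos
    obtain ⟨d, hd0, hd⟩ := syn_big (𝕜 := 𝕜) h2.le
    have hU : ∀ (N : ℕ) (y : Om N 0 → 𝕜), ‖ana p N 0 y‖ ≤ c 0 * nn p y :=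
      fun N y => ana_le hp (hc0 0).le N 0 (hc N 0) y
    refine ⟨fun _ => 0, fun k => k, max (c 0) d, lt_max_of_lt_right hd0, fun N k y => ?_,
      fun N k a => ?_, fun ε hε => ?_⟩
    · exact (hU N y).trans (mul_le_mul_of_nonneg_right (le_max_left _ _) (nn_nonneg _ _))
    · exact (hd N k a).trans (mul_le_mul_of_nonneg_right (le_max_right _ _) (norm_nonneg _))
    · obtain ⟨lam, hl, h⟩ := syn_flat (𝕜 := 𝕜) h2 (hc0 0) hε
      obtain ⟨k0, hk0⟩ := hk lam hl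
      refine ⟨lam, hl, k0, fun N k hkk y hy hf => h N k _ (hk0 k hkk) ?_ hf⟩
      have := hU N y
      have := hc0 0
      nlinarith
  · have hp2 : 2 < p' := by
      have h3 := hp.inv_add_inv_eq_one
      have h4 : p < 2 := hpq.trans_le h2
      have h5 : (2 : ℝ)⁻¹ < p⁻¹ := inv_strictAnti₀ hp.pos h4
      have h6 : p'⁻¹ < 2⁻¹ := by linarith
      exact (inv_lt_inv₀ hp.symm.pos two_pos).1 h6
    obtain ⟨c, hc0, hc⟩ := syn_all (𝕜 := 𝕜) hq0
    obtain ⟨d, hd0, hd⟩ := syn_big (𝕜 := 𝕜) hp2.le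
    have hU : ∀ (N k : ℕ) (y : Om N k → 𝕜), ‖ana p N k y‖ ≤ d * nn p y :=
      fun N k y => ana_le hp hd0.le N k (hd N k) y
    refine ⟨fun k => k, fun _ => 0, max (c 0) d, lt_max_of_lt_right hd0, fun N k y => ?_,
      fun N k a => ?_, fun ε hε => ?_⟩
    · exact (hU N k y).trans (mul_le_mul_of_nonneg_right (le_max_right _ _) (nn_nonneg _ _))
    · exact (hc N 0 a).trans (mul_le_mul_of_nonneg_right (le_max_left _ _) (norm_nonneg _))
    · have hc1 := hc0 0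
      obtain ⟨lam, hl, h⟩ := syn_flat (𝕜 := 𝕜) hp2 hd0 (ε := (ε / c 0) ^ 2) (by positivity)
      obtain ⟨k0, hk0⟩ := hk lam hl
      refine ⟨lam, hl, k0, fun N k hkk y hy hf => ?_⟩
      have h1 := h N k (cj (ana p N k y)) (hk0 k hkk) (by
        rw [norm_cj]
        have := hU N k y
        nlinarith) (fun j => by rw [norm_cj_apply]; exact hf j)
      have h3 := ana_sq_le hp N k y
      have h4 : ‖ana p N k y‖ ^ 2 ≤ (ε / c 0) ^ 2 := by
        have := nn_nonneg p' (syn p' N k (cj (ana p N k y)))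
        nlinarith
      have h5 : ‖ana p N k y‖ ≤ ε / c 0 := (abs_le_of_sq_le_sq' h4 (by positivity)).2
      rw [le_div_iff₀ hc1] at h5
      have h6 := hc N 0 (ana p N k y)
      linarith

end Pool.Agent.H996Z.FS
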