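import Pool.Agent.H996Z.FS.Defs
import Pool.Agent.H996Z.FS.Ops
import Pool.Agent.H996Z.FS.Lin

/-! Block structure on sequence spaces. -/

namespace Pool.Agent.H996Z.FS

open Finset
open scoped ENNReal

variable {𝕜 : Type*} [RCLike 𝕜] {Ω : ℕ → Type} [∀ k, Fintype (Ω k)]

/-- restriction to a block -/
def res (e : (Σ k, Ω k) ≃ ℕ) (p : ℝ≥0∞) (k : ℕ) : ell 𝕜 p →ₗ[𝕜] (Ω k → 𝕜) where
  toFun y := fun ω => y (e ⟨k, ω⟩)
  map_add' a b := by ext ω; simp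
  map_smul' c a := by ext ω; simp

/-- a sequence from its blocks -/
def blk (e : (Σ k, Ω k) ≃ ℕ) (v : ∀ k, Ω k → 𝕜) : ℕ → 𝕜 := fun n => v (e.symm n).1 (e.symm n).2

omit [RCLike 𝕜] [∀ k, Fintype (Ω k)] in
lemma blk_apply (e : (Σ k, Ω k) ≃ ℕ) (v : ∀ k, Ω k → 𝕜) (k : ℕ) (ω : Ω k) :
    blk e v (e ⟨k, ω⟩) = v k ω := by
  unfold blk
  rw [e.symm_apply_apply]

lemma hasSum_res (e : (Σ k, Ω k) ≃ ℕ) {p : ℝ≥0∞} (hp : 0 < p.toReal) (y : ell 𝕜 p) :
    HasSum (fun k => nn p.toReal (res e p k y) ^ p.toReal) (‖y‖ ^ p.toReal) := by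
  have h := (e.hasSum_iff.2 (lp.hasSum_norm hp y))
  refine h.sigma fun k => ?_
  rw [nn_rpow hp]
  exact hasSum_fintype _

lemma memlp_blk (e : (Σ k, Ω k) ≃ ℕ) {p : ℝ≥0∞} (hp : 0 < p.toReal) (v : ∀ k, Ω k → 𝕜)
    (hv : Summable fun k => nn p.toReal (v k) ^ p.toReal) : Memℓp (blk e v) p := by
  apply memℓp_gen
  rw [← e.summable_iff]
  have h1 : ((fun n => ‖blk e v n‖ ^ p.toReal) ∘ e) =
      fun x : Σ k, Ω k => ‖v x.1 x.2‖ ^ p.toReal := by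
    ext ⟨k, ω⟩
    simp only [Function.comp_apply, blk_apply]
  rw [h1, summable_sigma_of_nonneg (fun x => by positivity)]
  refine ⟨fun k => (hasSum_fintype _).summable, ?_⟩
  simp_rw [tsum_fintype, ← nn_rpow hp]
  exact hv

lemma nn_res_le (e : (Σ k, Ω k) ≃ ℕ) {p : ℝ≥0∞} (hp : 0 < p.toReal) (y : ell 𝕜 p) (k : ℕ) :
    nn p.toReal (res e p k y) ≤ ‖y‖ := by
  rw [← Real.rpow_le_rpow_iff (nn_nonneg _ _) (lp.norm_nonneg' y) hp]
  exact le_hasSum (hasSum_res e hp y) k fun j _ => Real.rpow_nonneg (nn_nonneg _ _) _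

lemma nn_zero {Ω : Type*} [Fintype Ω] {s : ℝ} (hs : 0 < s) : nn s (0 : Ω → 𝕜) = 0 := by
  simpa using nn_smul hs (0 : 𝕜) (0 : Ω → 𝕜)

lemma hasSum_single_blk {s : ℝ} (hs : 0 < s) (k : ℕ) (v : Ω k → 𝕜) :
    HasSum (fun l => nn s ((Pi.single k v : ∀ l, Ω l → 𝕜) l) ^ s) (nn s v ^ s) := by
  have := hasSum_single (f := fun l => nn s ((Pi.single k v : ∀ l, Ω l → 𝕜) l) ^ s) k
    (fun l hl => by simp [Pi.single_eq_of_ne hl, nn_zero hs, hs.ne'])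
  simpa using this

/-- extension of a block by zero -/
noncomputable def ext (e : (Σ k, Ω k) ≃ ℕ) {p : ℝ≥0∞} (hp : 0 < p.toReal) (k : ℕ) :
    (Ω k → 𝕜) →ₗ[𝕜] ell 𝕜 p where
  toFun v := ⟨blk e (Pi.single k v), memlp_blk e hp _ (hasSum_single_blk hp k v).summable⟩
  map_add' a b := by
    ext n
    simp [blk, Pi.single_add]
  map_smul' c a := by
    ext n
    simp [blk, Pi.single_smul]

lemma res_ext (e : (Σ k, Ω k) ≃ ℕ) {p : ℝ≥0∞} (hp : 0 < p.toReal) (k l : ℕ) (v : Ω k → 𝕜) :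
    res e p l (ext e hp k v) = (Pi.single k v : ∀ l, Ω l → 𝕜) l := by
  ext ω
  exact blk_apply e (Pi.single k v) l ω

lemma norm_ext (e : (Σ k, Ω k) ≃ ℕ) {p : ℝ≥0∞} (hp : 0 < p.toReal) (k : ℕ) (v : Ω k → 𝕜) :
    ‖ext e hp k v‖ = nn p.toReal v := by
  have h1 := hasSum_res e hp (ext e hp k v)
  simp_rw [res_ext] at h1
  have h2 := h1.unique (hasSum_single_blk hp k v)
  exact Real.rpow_left_injOn hp.ne' (lp.norm_nonneg' _) (nn_nonneg _ _) h2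

/-- comparison of sums of powers -/
lemma norm_le_of_blocks {Ω' : ℕ → Type} [∀ k, Fintype (Ω' k)] (e : (Σ k, Ω k) ≃ ℕ)
    {p q : ℝ≥0∞} (hp : 0 < p.toReal) (hpq : p.toReal ≤ q.toReal) (y : ell 𝕜 p)
    (v : ∀ k, Ω' k → 𝕜) {C σ : ℝ} (hC : 0 ≤ C) (hσ : 0 ≤ σ)
    (h1 : ∀ k, nn q.toReal (v k) ≤ C * nn p.toReal (res e p k y))
    (h2 : ∀ k, nn q.toReal (v k) ≤ σ) :
    Summable (fun k => nn q.toReal (v k) ^ q.toReal) ∧
      ∑' k, nn q.toReal (v k) ^ q.toReal ≤ σ ^ (q.toReal - p.toReal) * (C * ‖y‖) ^ p.toReal := by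
  have hs := (hasSum_res e hp y).mul_left (σ ^ (q.toReal - p.toReal) * C ^ p.toReal)
  have hle : ∀ k, nn q.toReal (v k) ^ q.toReal ≤
      σ ^ (q.toReal - p.toReal) * C ^ p.toReal * nn p.toReal (res e p k y) ^ p.toReal := by
    intro k
    have h0 := nn_nonneg q.toReal (v k)
    have h3 : nn q.toReal (v k) ^ q.toReal =
        nn q.toReal (v k) ^ (q.toReal - p.toReal) * nn q.toReal (v k) ^ p.toReal := by
      rw [← Real.rpow_add_of_nonneg h0 (by linarith) hp.le]; simp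
    rw [h3, mul_assoc, ← Real.mul_rpow hC (nn_nonneg _ _)]
    exact mul_le_mul (Real.rpow_le_rpow h0 (h2 k) (by linarith))
      (Real.rpow_le_rpow h0 (h1 k) hp.le) (by positivity) (by positivity)
  have hsum : Summable (fun k => nn q.toReal (v k) ^ q.toReal) :=
    Summable.of_nonneg_of_le (fun k => Real.rpow_nonneg (nn_nonneg _ _) _) hle hs.summable
  refine ⟨hsum, ?_⟩
  rw [Real.mul_rpow hC (lp.norm_nonneg' y), ← mul_assoc]
  exact hasSum_le hle hsum.hasSum hs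

/-- block diagonal operators -/
lemma exists_block_op {Ω' : ℕ → Type} [∀ k, Fintype (Ω' k)] (e : (Σ k, Ω k) ≃ ℕ)
    (e' : (Σ k, Ω' k) ≃ ℕ) {p q : ℝ≥0∞} [Fact (1 ≤ p)] [Fact (1 ≤ q)] (hp : 0 < p.toReal)
    (hpq : p.toReal ≤ q.toReal) (R : ∀ k, (Ω k → 𝕜) →ₗ[𝕜] (Ω' k → 𝕜)) {C : ℝ} (hC : 0 ≤ C)
    (hR : ∀ k y, nn q.toReal (R k y) ≤ C * nn p.toReal y) :
    ∃ S : ell 𝕜 p →L[𝕜] ell 𝕜 q, ∀ y k, res e' q k (S y) = R k (res e p k y) := by
  have hq : 0 < q.toReal := hp.trans_le hpq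
  have key := fun y : ell 𝕜 p => norm_le_of_blocks e hp hpq y (fun k => R k (res e p k y)) hC
    (σ := C * ‖y‖) (by positivity) (fun k => hR k _)
    (fun k => (hR k _).trans (mul_le_mul_of_nonneg_left (nn_res_le e hp y k) hC))
  let S0 : ell 𝕜 p →ₗ[𝕜] ell 𝕜 q :=
    { toFun := fun y => ⟨blk e' fun k => R k (res e p k y), memlp_blk e' hq _ (key y).1⟩
      map_add' := fun a b => by
        ext n
        simp [blk]
      map_smul' := fun c a => by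
        ext n
        simp [blk] }
  have hS0 : ∀ y k, res e' q k (S0 y) = R k (res e p k y) := by
    intro y k
    ext ω
    exact blk_apply e' (fun k => R k (res e p k y)) k ω
  refine ⟨S0.mkContinuous C fun y => ?_, hS0⟩
  have h1 := hasSum_res e' hq (S0 y)
  simp_rw [hS0] at h1
  have h2 := (key y).2
  rw [h1.tsum_eq, ← Real.rpow_add_of_nonneg (by positivity) (by linarith) hp.le,
    sub_add_cancel] at h2
  exact (Real.rpow_le_rpow_iff (norm_nonneg _) (by positivity) hq).1 h2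

end Pool.Agent.H996Z.FS
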