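import Pool.Agent.H996Z.FS.Glue

/-! The ideal of finitely strictly singular operators is not singly generated. -/

namespace Pool.Agent.H996Z.FS

open Finset Filter Topology
open scoped ENNReal

variable {𝕜 : Type*} [RCLike 𝕜]

/-- the block operator is finitely strictly singular -/
lemma block_fss {p q : ℝ≥0∞} [Fact (1 ≤ p)] [Fact (1 ≤ q)] (hp : 0 < p.toReal)
    (hpq : p.toReal < q.toReal) {Ω Ω' : ℕ → Type} [∀ k, Fintype (Ω k)] [∀ k, Fintype (Ω' k)]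
    (e : (Σ k, Ω k) ≃ ℕ) (e' : (Σ k, Ω' k) ≃ ℕ) (N : ℕ → ℕ)
    (U : ∀ k, (Ω k → 𝕜) →ₗ[𝕜] EuclideanSpace 𝕜 (Fin (N k)))
    (V : ∀ k, EuclideanSpace 𝕜 (Fin (N k)) →ₗ[𝕜] (Ω' k → 𝕜)) {C : ℝ} (hC : 0 < C)
    (hU : ∀ k y, ‖U k y‖ ≤ C * nn p.toReal y) (hV : ∀ k a, nn q.toReal (V k a) ≤ C * ‖a‖)
    (hs : ∀ ε : ℝ, 0 < ε → ∃ lam : ℝ, 0 < lam ∧ ∃ k0 : ℕ, ∀ k, k0 ≤ k → ∀ y : Ω k → 𝕜,
      nn p.toReal y ≤ 1 → (∀ j, ‖U k y j‖ ≤ lam) → nn q.toReal (V k (U k y)) ≤ ε)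
    (S : ell 𝕜 p →L[𝕜] ell 𝕜 q) (hS : ∀ y k, res e' q k (S y) = V k (U k (res e p k y))) :
    S ∈ FSS 𝕜 p q := by
  classical
  have hq : 0 < q.toReal := hp.trans hpq
  intro ε hε
  -- the uniform smallness level of the blocks
  set σ : ℝ := (ε ^ q.toReal / (C * C) ^ p.toReal) ^ (1 / (q.toReal - p.toReal)) with hσ
  have hσ0 : 0 < σ := by positivity
  have hσ1 : σ ^ (q.toReal - p.toReal) * (C * C) ^ p.toReal = ε ^ q.toReal := by
    rw [hσ, ← Real.rpow_mul (by positivity), one_div_mul_cancel (by linarith), Real.rpow_one]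
    field_simp
  obtain ⟨lam0, hl0, k0, hk0⟩ := hs σ hσ0
  set B : ℝ := ∑ k ∈ Finset.range k0, (N k : ℝ) + 1 with hB
  have hB0 : 0 < B := by positivity
  set lam : ℝ := min lam0 (σ / (C * B)) with hlam
  have hl : 0 < lam := by positivity
  let A : (Σ k, Fin (N k)) → ell 𝕜 p →ₗ[𝕜] 𝕜 := fun i =>
    (EuclideanSpace.projₗ i.2) ∘ₗ U i.1 ∘ₗ res e p i.1
  have hA : ∀ i y, A i y = U i.1 (res e p i.1 y) i.2 := fun i y => rfl
  have hA1 : ∀ i y, ‖A i y‖ ≤ C * ‖y‖ := by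
    intro i y
    rw [hA]
    exact (PiLp.norm_apply_le _ _).trans ((hU _ _).trans
      (mul_le_mul_of_nonneg_left (nn_res_le e hp y _) hC.le))
  set κ : ℝ := C / (lam / 2) with hκ
  have hκ0 : 0 < κ := by positivity
  obtain ⟨n, hn⟩ := exists_nat_gt (κ ^ 2 * κ ^ p.toReal)
  have hcount : ∀ y : ell 𝕜 p, ‖y‖ ≤ 1 → ∀ F : Finset (Σ k, Fin (N k)),
      (∀ i ∈ F, lam / 2 ≤ ‖A i y‖) → F.card < n := by
    intro y hy F hF
    have h1 : ∀ k, ((F.filter fun i => i.1 = k).card : ℝ) ≤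
        κ ^ 2 * κ ^ p.toReal * nn p.toReal (res e p k y) ^ p.toReal := by
      intro k
      set t := nn p.toReal (res e p k y) with ht
      have ht0 : 0 ≤ t := nn_nonneg _ _
      have ht1 : t ≤ 1 := (nn_res_le e hp y k).trans hy
      set G : Finset (Fin (N k)) := Finset.univ.filter fun j => (⟨k, j⟩ : Σ k, Fin (N k)) ∈ F
        with hG
      have hcard : (F.filter fun i => i.1 = k).card = G.card := by
        symm
        refine Finset.card_bij (fun j _ => ⟨k, j⟩) (fun j hj => ?_) (fun a _ b _ h => ?_) ?_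
        · simpa [hG] using hj
        · simpa using h
        · rintro ⟨l, j⟩ hj
          obtain ⟨h1, h2⟩ := Finset.mem_filter.1 hj
          dsimp only at h2
          subst h2
          exact ⟨j, by simpa [hG] using h1, rfl⟩
      rw [hcard]
      have h2 : (G.card : ℝ) * (lam / 2) ^ 2 ≤ (C * t) ^ 2 := by
        have h3 : ‖U k (res e p k y)‖ ^ 2 ≤ (C * t) ^ 2 :=
          pow_le_pow_left₀ (norm_nonneg _) (hU _ _) 2
        rw [EuclideanSpace.norm_sq_eq] at h3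
        refine le_trans ?_ ((Finset.sum_le_sum_of_subset_of_nonneg (Finset.subset_univ G)
          fun _ _ _ => sq_nonneg _).trans h3)
        rw [← nsmul_eq_mul]
        refine Finset.card_nsmul_le_sum _ _ _ fun j hj => ?_
        exact pow_le_pow_left₀ (by positivity) (hF ⟨k, j⟩ (by simpa [hG] using hj)) 2
      have h4 : (G.card : ℝ) ≤ (κ * t) ^ 2 := by
        have : (κ * t) ^ 2 = (C * t) ^ 2 / (lam / 2) ^ 2 := by rw [hκ]; field_simp
        rw [this, le_div_iff₀ (by positivity)]; exact h2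
      rcases Nat.eq_zero_or_pos G.card with h0 | h0
      · rw [h0]; simp only [Nat.cast_zero]; positivity
      · have h5 : (1 : ℝ) ≤ (κ * t) ^ 2 := le_trans (by exact_mod_cast h0) h4
        have h6 : 1 ≤ κ * t := by
          by_contra h7
          push Not at h7
          have := mul_nonneg hκ0.le ht0
          nlinarith
        have h7 : 1 ≤ (κ * t) ^ p.toReal := Real.one_le_rpow h6 hp.le
        rw [Real.mul_rpow hκ0.le ht0] at h7
        have h8 : (κ * t) ^ 2 ≤ κ ^ 2 := by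
          apply pow_le_pow_left₀ (by positivity); nlinarith
        nlinarith [sq_nonneg κ]
    have h2 : (F.card : ℝ) = ∑ k ∈ F.image (·.1), ((F.filter fun i => i.1 = k).card : ℝ) := by
      exact_mod_cast Finset.card_eq_sum_card_image (·.1) F
    have h3 := sum_le_hasSum (F.image (·.1)) (fun k _ => Real.rpow_nonneg (nn_nonneg _ _) _)
      (hasSum_res e hp y)
    have h4 : ‖y‖ ^ p.toReal ≤ 1 := Real.rpow_le_one (norm_nonneg _) hy hp.le
    have h5 : (F.card : ℝ) ≤ κ ^ 2 * κ ^ p.toReal := by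
      rw [h2]
      refine (Finset.sum_le_sum fun k _ => h1 k).trans ?_
      rw [← Finset.mul_sum]
      have : 0 ≤ κ ^ 2 * κ ^ p.toReal := by positivity
      nlinarith
    exact_mod_cast h5.trans_lt hn
  refine ⟨n, fun E hE => ?_⟩
  obtain ⟨y0, hyE, hy0, hy⟩ := exists_flat A hC hA1 hl hcount E hE
  have hn0 : 0 < ‖y0‖ := norm_pos_iff.2 hy0
  set y : ell 𝕜 p := ((‖y0‖⁻¹ : ℝ) : 𝕜) • y0 with hydef
  have hy1 : ‖y‖ = 1 := by
    rw [hydef, norm_smul, RCLike.norm_ofReal, abs_of_pos (by positivity)]; field_simp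
  have hyf : ∀ i, ‖A i y‖ ≤ lam := by
    intro i
    rw [hydef, map_smul, norm_smul, RCLike.norm_ofReal, abs_of_pos (by positivity),
      inv_mul_le_iff₀ hn0, mul_comm]
    exact hy i
  refine ⟨y, E.smul_mem _ hyE, fun h => by simp [h] at hy1, ?_⟩
  have hsm : ∀ k, nn q.toReal (V k (U k (res e p k y))) ≤ σ := by
    intro k
    rcases le_or_gt k0 k with h | h
    · exact hk0 k h _ ((nn_res_le e hp y k).trans hy1.le)
        fun j => (hyf ⟨k, j⟩).trans (min_le_left _ _)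
    · have h1 : ‖U k (res e p k y)‖ ≤ N k * lam := by
        have h2 : ‖U k (res e p k y)‖ ^ 2 ≤ (N k * lam) ^ 2 := by
          rw [EuclideanSpace.norm_sq_eq]
          refine (Finset.sum_le_card_nsmul _ _ (lam ^ 2) fun j _ =>
            pow_le_pow_left₀ (norm_nonneg _) (hyf ⟨k, j⟩) 2).trans ?_
          simp only [Finset.card_univ, Fintype.card_fin, nsmul_eq_mul, mul_pow]
          refine mul_le_mul_of_nonneg_right ?_ (sq_nonneg _)
          exact_mod_cast Nat.le_self_pow two_ne_zero (N k)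
        exact (abs_le_of_sq_le_sq' h2 (by positivity)).2
      have h2 : (N k : ℝ) ≤ B := by
        have := Finset.single_le_sum (f := fun k => (N k : ℝ)) (fun _ _ => by positivity)
          (Finset.mem_range.2 h)
        linarith
      have h3 : lam ≤ σ / (C * B) := min_le_right _ _
      rw [le_div_iff₀ (by positivity)] at h3
      have h4 : (N k : ℝ) * lam ≤ B * lam := mul_le_mul_of_nonneg_right h2 hl.le
      refine (hV _ _).trans ?_
      nlinarith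
  have key := norm_le_of_blocks e hp hpq.le y (fun k => V k (U k (res e p k y))) (C := C * C)
    (by positivity) hσ0.le (fun k => (hV _ _).trans (by
      rw [mul_assoc]; exact mul_le_mul_of_nonneg_left (hU _ _) hC.le)) hsm
  have h1 := hasSum_res e' hq (S y)
  simp_rw [hS] at h1
  have h2 := key.2
  rw [h1.tsum_eq, hy1, mul_one, hσ1] at h2
  rw [hy1, mul_one]
  exact (Real.rpow_le_rpow_iff (norm_nonneg _) hε.le hq).1 h2

/-- normalised traces of compressions of a finitely strictly singular operator -/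
lemma trace_small {X Y : Type*} [NormedAddCommGroup X] [NormedSpace 𝕜 X] [NormedAddCommGroup Y]
    [NormedSpace 𝕜 Y] (T : X →L[𝕜] Y) {N n : ℕ} (J : EuclideanSpace 𝕜 (Fin N) →ₗ[𝕜] X)
    (Z : Y →ₗ[𝕜] EuclideanSpace 𝕜 (Fin N)) {a b ε : ℝ} (ha : 0 ≤ a) (hb : 0 ≤ b) (hε : 0 ≤ ε)
    (hJ : ∀ x, ‖J x‖ ≤ a * ‖x‖) (hZ : ∀ y, ‖Z y‖ ≤ b * ‖y‖)
    (hT : ∀ E : Submodule 𝕜 X, (n : Cardinal) ≤ Module.rank 𝕜 E →
      ∃ x ∈ E, x ≠ 0 ∧ ‖T x‖ ≤ ε * ‖x‖) :
    ‖∑ j, Z (T (J (EuclideanSpace.single j 1))) j‖ ^ 2 ≤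
      N * (n * (b * ‖T‖ * a) ^ 2 + N * (b * ε * a) ^ 2) := by
  let H : EuclideanSpace 𝕜 (Fin N) →ₗ[𝕜] EuclideanSpace 𝕜 (Fin N) := Z ∘ₗ T.toLinearMap ∘ₗ J
  have hH : ∀ x, H x = Z (T (J x)) := fun x => rfl
  have h1 := hs_bound H (K := b * ‖T‖ * a) (ε := b * ε * a) (by positivity) (fun x => by
    rw [hH]
    calc ‖Z (T (J x))‖ ≤ b * ‖T (J x)‖ := hZ _
      _ ≤ b * (‖T‖ * ‖J x‖) := by gcongr; exact T.le_opNorm _
      _ ≤ b * (‖T‖ * (a * ‖x‖)) := by gcongr; exact hJ _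
      _ = _ := by ring) (n := n) (fun E hE => by
    by_cases hinj : ∃ x ∈ E, x ≠ 0 ∧ J x = 0
    · obtain ⟨x, hx, hx0, hJx⟩ := hinj
      refine ⟨x, hx, hx0, ?_⟩
      rw [hH, hJx, map_zero, map_zero, norm_zero]; positivity
    · have hi : Function.Injective (J ∘ₗ E.subtype) := by
        rw [← LinearMap.ker_eq_bot, LinearMap.ker_eq_bot']
        intro x hx
        by_contra h0
        exact hinj ⟨x, x.2, fun h => h0 (Subtype.ext h), hx⟩
      have hr : (n : Cardinal) ≤ Module.rank 𝕜 (LinearMap.range (J ∘ₗ E.subtype)) := by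
        have h2 := lift_rank_range_of_injective _ hi
        have h3 := Cardinal.lift_le.{_, _}.2 hE
        rw [← h2, Cardinal.lift_natCast] at h3
        simpa using h3
      obtain ⟨y, ⟨x, rfl⟩, hy0, hy⟩ := hT _ hr
      refine ⟨x, x.2, fun h => hy0 (by simp [h]), ?_⟩
      rw [hH]
      calc ‖Z (T (J x))‖ ≤ b * ‖T (J x)‖ := hZ _
        _ ≤ b * (ε * ‖J x‖) := by gcongr; exact hy
        _ ≤ b * (ε * (a * ‖(x : EuclideanSpace 𝕜 (Fin N))‖)) := by gcongr; exact hJ _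
        _ = _ := by ring)
  have h2 : ‖∑ j, Z (T (J (EuclideanSpace.single j 1))) j‖ ≤
      ∑ j, ‖H (EuclideanSpace.single j 1)‖ :=
    (norm_sum_le _ _).trans (Finset.sum_le_sum fun j _ => PiLp.norm_apply_le _ _)
  have h3 := sq_sum_le_card_mul_sum_sq (s := Finset.univ)
    (f := fun j : Fin N => ‖H (EuclideanSpace.single j 1)‖)
  simp only [Finset.card_univ, Fintype.card_fin] at h3
  calc _ ≤ (∑ j, ‖H (EuclideanSpace.single j 1)‖) ^ 2 := pow_le_pow_left₀ (norm_nonneg _) h2 2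
    _ ≤ _ := h3
    _ ≤ _ := mul_le_mul_of_nonneg_left h1 (by positivity)

theorem not_singly {p q : ℝ≥0∞} [Fact (1 ≤ p)] [Fact (1 ≤ q)] (hp : 1 < p) (hpq : p < q)
    (hq : q < ∞) (T : ell 𝕜 p →L[𝕜] ell 𝕜 q) : genIdeal T ≠ FSS 𝕜 p q := by
  classical
  intro hEq
  have hp1 : 1 < p.toReal := by
    have := (ENNReal.toReal_lt_toReal ENNReal.one_ne_top (hpq.trans hq).ne).2 hp
    simpa using this
  have hpq1 : p.toReal < q.toReal := (ENNReal.toReal_lt_toReal (hpq.trans hq).ne hq.ne).2 hpq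
  have hp0 : 0 < p.toReal := by linarith
  have hq0 : 0 < q.toReal := by linarith
  have hpc := Real.HolderConjugate.conjExponent hp1
  have hqc := Real.HolderConjugate.conjExponent (hp1.trans hpq1)
  have hT : T ∈ FSS 𝕜 p q := by
    rw [← hEq]
    refine subset_closure ⟨1, fun _ => ContinuousLinearMap.id 𝕜 _,
      fun _ => ContinuousLinearMap.id 𝕜 _, ?_⟩
    simp
  obtain ⟨Ll, Lr, C, hC, hU, hV, hs⟩ := exists_system (𝕜 := 𝕜) hpc hpq1
  obtain ⟨c, hc0, hc⟩ := syn_all (𝕜 := 𝕜) hp0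
  obtain ⟨d, hd0, hd⟩ := syn_all (𝕜 := 𝕜) hqc.symm.pos
  set w : ℕ → ℝ := fun k => c (Ll k) * d (Lr k) with hw
  have hw0 : ∀ k, 0 < w k := fun k => mul_pos (hc0 _) (hd0 _)
  choose n hn using fun k : ℕ => hT (1 / ((k + 1) * w k)) (by have := hw0 k; positivity)
  have hN' : ∀ k : ℕ, ∃ N : ℕ, 0 < N ∧ n k * w k ^ 2 * ((k : ℝ) + 1) ^ 2 ≤ N := by
    intro k
    obtain ⟨N, hN⟩ := exists_nat_gt (n k * w k ^ 2 * ((k : ℝ) + 1) ^ 2)
    refine ⟨N, ?_, hN.le⟩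
    have : (0 : ℝ) < N := lt_of_le_of_lt (by positivity) hN
    exact_mod_cast this
  choose N hN0 hN using hN'
  obtain ⟨e⟩ : Nonempty ((Σ k, Om (N k) (Ll k)) ≃ ℕ) := nonempty_equiv_of_countable
  obtain ⟨e'⟩ : Nonempty ((Σ k, Om (N k) (Lr k)) ≃ ℕ) := nonempty_equiv_of_countable
  obtain ⟨S, hS⟩ := exists_block_op (𝕜 := 𝕜) e e' hp0 hpq1.le
    (fun k => syn q.toReal (N k) (Lr k) ∘ₗ ana p.toReal (N k) (Ll k)) (C := C * C) (by positivity)
    (fun k y => (hV _ _ _).trans (by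
      rw [mul_assoc]; exact mul_le_mul_of_nonneg_left (hU _ _ _) hC.le))
  have hSF : S ∈ FSS 𝕜 p q := block_fss hp0 hpq1 e e' N (fun k => ana p.toReal (N k) (Ll k))
    (fun k => syn q.toReal (N k) (Lr k)) hC (fun k y => hU _ _ _) (fun k a => hV _ _ _)
    (fun ε hε => by
      obtain ⟨lam, hl, k0, h⟩ := hs ε hε
      exact ⟨lam, hl, k0, fun k hk => h (N k) k hk⟩) S hS
  -- the test functionals
  let J : ∀ k, EuclideanSpace 𝕜 (Fin (N k)) →ₗ[𝕜] ell 𝕜 p := fun k =>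
    ext e hp0 k ∘ₗ syn p.toReal (N k) (Ll k)
  let Z : ∀ k, ell 𝕜 q →ₗ[𝕜] EuclideanSpace 𝕜 (Fin (N k)) := fun k =>
    ana q.toReal (N k) (Lr k) ∘ₗ res e' q k
  have hJ : ∀ k x, ‖J k x‖ ≤ c (Ll k) * ‖x‖ := fun k x => by
    simp only [J, LinearMap.comp_apply, norm_ext]; exact hc _ _ _
  have hJ1 : ∀ k j, ‖J k (EuclideanSpace.single j 1)‖ ≤ 1 := fun k j => by
    simp only [J, LinearMap.comp_apply, norm_ext]; exact nn_syn_single hp0 _ _ _
  have hZ : ∀ k y, ‖Z k y‖ ≤ d (Lr k) * ‖y‖ := fun k y =>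
    (ana_le hqc (hd0 _).le _ _ (hd _ _) _).trans
      (mul_le_mul_of_nonneg_left (nn_res_le e' hq0 y k) (hd0 _).le)
  have hZ1 : ∀ k y j, ‖Z k y j‖ ≤ ‖y‖ := fun k y j =>
    (ana_coord_le hqc _ _ _ j).trans (nn_res_le e' hq0 y k)
  let Φ : ℕ → (ell 𝕜 p →L[𝕜] ell 𝕜 q) → 𝕜 := fun k W =>
    (∑ j, Z k (W (J k (EuclideanSpace.single j 1))) j) / (N k : 𝕜)
  have hNk : ∀ k, (0 : ℝ) < N k := fun k => by exact_mod_cast hN0 k
  have hΦ1 : ∀ k W, ‖Φ k W‖ ≤ ‖W‖ := by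
    intro k W
    simp only [Φ, norm_div, RCLike.norm_natCast]
    rw [div_le_iff₀ (hNk k)]
    refine (norm_sum_le _ _).trans ((Finset.sum_le_card_nsmul _ _ ‖W‖ fun j _ => ?_).trans ?_)
    · refine (hZ1 _ _ _).trans ((W.le_opNorm _).trans ?_)
      have := hJ1 k j
      have := norm_nonneg W
      nlinarith
    · simp [mul_comm]
  have hΦS : ∀ k, Φ k S = 1 := by
    intro k
    have h1 : ∀ x, Z k (S (J k x)) = x := by
      intro x
      simp only [Z, J, LinearMap.comp_apply, hS, res_ext, Pi.single_eq_same, ana_syn]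
    have h2 : (N k : 𝕜) ≠ 0 := by exact_mod_cast (hN0 k).ne'
    simp [Φ, h1, h2]
  have hΦsub : ∀ k W W', Φ k (W - W') = Φ k W - Φ k W' := by
    intro k W W'
    simp [Φ, sub_div]
  have hΦsum : ∀ k (m : ℕ) (W : Fin m → (ell 𝕜 p →L[𝕜] ell 𝕜 q)),
      Φ k (∑ i, W i) = ∑ i, Φ k (W i) := by
    intro k m W
    simp only [Φ, _root_.sum_apply, map_sum, WithLp.ofLp_sum, Finset.sum_apply]
    rw [Finset.sum_comm, Finset.sum_div]
  have hΦT : ∀ (A : ell 𝕜 q →L[𝕜] ell 𝕜 q) (B : ell 𝕜 p →L[𝕜] ell 𝕜 p),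
      Tendsto (fun k => Φ k (A.comp (T.comp B))) atTop (𝓝 0) := by
    intro A B
    have hb : ∀ k : ℕ, ‖Φ k (A.comp (T.comp B))‖ ≤ (‖A‖ * ‖B‖ * (‖T‖ + 1)) * (1 / ((k : ℝ) + 1)) := by
      intro k
      have h1 := trace_small T (B.toLinearMap ∘ₗ J k) (Z k ∘ₗ A.toLinearMap)
        (a := ‖B‖ * c (Ll k)) (b := d (Lr k) * ‖A‖) (ε := 1 / ((k + 1) * w k)) (n := n k)
        (by have := hc0 (Ll k); positivity) (by have := hd0 (Lr k); positivity)
        (by have := hw0 k; positivity)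
        (fun x => by
          rw [mul_assoc]
          exact (B.le_opNorm _).trans (mul_le_mul_of_nonneg_left (hJ k x) (norm_nonneg _)))
        (fun y => by
          rw [mul_assoc]
          exact (hZ k _).trans (mul_le_mul_of_nonneg_left (A.le_opNorm _) (hd0 _).le)) (hn k)
      have h2 : d (Lr k) * ‖A‖ * (1 / ((k + 1) * w k)) * (‖B‖ * c (Ll k)) =
          ‖A‖ * ‖B‖ * (1 / ((k : ℝ) + 1)) := by
        have := hc0 (Ll k); have := hd0 (Lr k)
        simp only [hw]; field_simp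
      have h3 : (n k : ℝ) * (d (Lr k) * ‖A‖ * ‖T‖ * (‖B‖ * c (Ll k))) ^ 2 ≤
          N k * (‖A‖ * ‖B‖ * ‖T‖ * (1 / ((k : ℝ) + 1))) ^ 2 := by
        have h4 : (n k : ℝ) * (d (Lr k) * ‖A‖ * ‖T‖ * (‖B‖ * c (Ll k))) ^ 2 =
            (n k * w k ^ 2 * ((k : ℝ) + 1) ^ 2) * (‖A‖ * ‖B‖ * ‖T‖ * (1 / ((k : ℝ) + 1))) ^ 2 := by
          simp only [hw]; field_simp
        rw [h4]
        exact mul_le_mul_of_nonneg_right (hN k) (sq_nonneg _)
      rw [h2] at h1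
      simp only [Φ, norm_div, RCLike.norm_natCast]
      rw [div_le_iff₀ (hNk k)]
      refine (abs_le_of_sq_le_sq' (h1.trans ?_) (by have := hNk k; positivity)).2
      set u := ‖A‖ * ‖B‖ * (1 / ((k : ℝ) + 1)) with hu
      have hu0 : 0 ≤ u := by positivity
      have h5 : ‖A‖ * ‖B‖ * ‖T‖ * (1 / ((k : ℝ) + 1)) = u * ‖T‖ := by rw [hu]; ring
      have h6 : ‖A‖ * ‖B‖ * (‖T‖ + 1) * (1 / ((k : ℝ) + 1)) = u * (‖T‖ + 1) := by rw [hu]; ring
      rw [h5] at h3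
      rw [h6]
      have h7 := hNk k
      have h8 : 0 ≤ u ^ 2 * ‖T‖ := by positivity
      calc (N k : ℝ) * (n k * (d (Lr k) * ‖A‖ * ‖T‖ * (‖B‖ * c (Ll k))) ^ 2 + N k * u ^ 2) ≤
            N k * (N k * (u * ‖T‖) ^ 2 + N k * u ^ 2) := by gcongr
        _ = (N k : ℝ) ^ 2 * ((u * ‖T‖) ^ 2 + u ^ 2) := by ring
        _ ≤ (N k : ℝ) ^ 2 * (u * (‖T‖ + 1)) ^ 2 := by gcongr; nlinarith
        _ = _ := by ring
    refine squeeze_zero_norm hb ?_
    simpa using tendsto_one_div_add_atTop_nhds_zero_nat.const_mul (‖A‖ * ‖B‖ * (‖T‖ + 1))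
  rw [← hEq] at hSF
  obtain ⟨W, ⟨m, A, B, rfl⟩, hW⟩ := Metric.mem_closure_iff.1 hSF (1 / 2) (by norm_num)
  have h1 : Tendsto (fun k => Φ k (∑ i, (A i).comp (T.comp (B i)))) atTop (𝓝 0) := by
    simp_rw [hΦsum]
    simpa using tendsto_finsetSum Finset.univ fun i _ => hΦT (A i) (B i)
  obtain ⟨k, hk⟩ := (h1.eventually (Metric.ball_mem_nhds 0 (by norm_num : (0 : ℝ) < 1 / 2))).exists
  rw [dist_eq_norm] at hW
  have h2 := (hΦ1 k _).trans_lt hW
  rw [hΦsub, hΦS] at h2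
  rw [dist_zero_right] at hk
  have h3 := norm_add_le (1 - Φ k (∑ i, (A i).comp (T.comp (B i))))
    (Φ k (∑ i, (A i).comp (T.comp (B i))))
  rw [sub_add_cancel, norm_one] at h3
  linarith

end Pool.Agent.H996Z.FS
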