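import Mathlib

/-! Independent symmetric three-valued random variables on a finite product space: moment bounds. -/

namespace Pool.Agent.H996Z.FS

open Finset

/-- one coordinate -/
abbrev Th (L : ℕ) : Type := Bool × Fin (L + 1)

/-- the three-valued variable -/
def sg {L : ℕ} (θ : Th L) : ℝ := if θ.2 = 0 then (if θ.1 then 1 else -1) else 0

/-- the product space -/
abbrev Om (N L : ℕ) : Type := Fin N → Th L

/-- number of points -/
noncomputable def MM (N L : ℕ) : ℝ := (2 * ((L : ℝ) + 1)) ^ N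

/-- size of the supports -/
noncomputable def DD (N L : ℕ) : ℝ := MM N L / ((L : ℝ) + 1)

lemma MM_pos (N L : ℕ) : 0 < MM N L := by unfold MM; positivity

lemma DD_pos (N L : ℕ) : 0 < DD N L := by
  unfold DD; have := MM_pos N L; positivity

lemma MM_eq (N L : ℕ) : MM N L = DD N L * ((L : ℝ) + 1) := by
  unfold DD; field_simp

lemma sum_sg {L : ℕ} (h : ℝ → ℝ) : ∑ θ : Th L, h (sg θ) = h 1 + h (-1) + 2 * L * h 0 := by
  rw [Fintype.sum_prod_type]
  simp only [Fintype.sum_bool, Fin.sum_univ_succ, sg]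
  simp [Fin.succ_ne_zero]
  ring

lemma sum_prod_om {N L : ℕ} (h : Fin N → Th L → ℝ) :
    ∑ ω : Om N L, ∏ j, h j (ω j) = ∏ j, ∑ θ, h j θ := by
  rw [Finset.prod_univ_sum]
  simp

lemma card_om (N L : ℕ) : ∑ _ω : Om N L, (1 : ℝ) = MM N L := by
  simp [MM]

lemma sg_cases {L : ℕ} (θ : Th L) : sg θ = 0 ∨ sg θ = 1 ∨ sg θ = -1 := by
  unfold sg; split_ifs <;> simp

lemma abs_sg_rpow {L : ℕ} (θ : Th L) {s : ℝ} (hs : 0 < s) : |sg θ| ^ s = sg θ * sg θ := by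
  rcases sg_cases θ with h | h | h <;> rw [h] <;> simp [hs.ne']

lemma orth {N L : ℕ} (i j : Fin N) :
    ∑ ω : Om N L, sg (ω i) * sg (ω j) = if i = j then DD N L else 0 := by
  classical
  have h1 : ∀ ω : Om N L, sg (ω i) * sg (ω j) =
      ∏ l, ((if l = i then sg (ω l) else 1) * (if l = j then sg (ω l) else 1)) := by
    intro ω
    rw [Finset.prod_mul_distrib]
    simp
  simp_rw [h1]
  rw [sum_prod_om (fun l θ => (if l = i then sg θ else 1) * (if l = j then sg θ else 1))]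
  split_ifs with hij
  · subst hij
    have h2 : ∀ l : Fin N, ∑ θ : Th L, (if l = i then sg θ else 1) * (if l = i then sg θ else 1)
        = (2 * ((L : ℝ) + 1)) * (if l = i then 1 / ((L : ℝ) + 1) else 1) := by
      intro l
      split_ifs
      · rw [sum_sg (fun x => x * x)]; field_simp; ring
      · simp
    simp_rw [h2]
    rw [Finset.prod_mul_distrib]
    simp [DD, MM, div_eq_mul_inv]
  · apply Finset.prod_eq_zero (Finset.mem_univ i)
    simp only [if_true, if_neg hij, mul_one]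
    rw [sum_sg (fun x => x)]; simp

lemma sum_sq {N L : ℕ} (a : Fin N → ℝ) :
    ∑ ω : Om N L, (∑ j, a j * sg (ω j)) ^ 2 = DD N L * ∑ j, a j ^ 2 := by
  classical
  have h1 : ∀ ω : Om N L, (∑ j, a j * sg (ω j)) ^ 2 =
      ∑ i, ∑ j, a i * a j * (sg (ω i) * sg (ω j)) := by
    intro ω
    rw [sq, Finset.sum_mul_sum]
    refine Finset.sum_congr rfl fun i _ => Finset.sum_congr rfl fun j _ => by ring
  simp_rw [h1]
  rw [Finset.sum_comm, Finset.mul_sum]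
  refine Finset.sum_congr rfl fun i _ => ?_
  rw [Finset.sum_comm]
  simp_rw [← Finset.mul_sum, orth]
  simp; ring

lemma sum_exp {N L : ℕ} (a : Fin N → ℝ) :
    ∑ ω : Om N L, Real.exp (∑ j, a j * sg (ω j)) =
      MM N L * ∏ j, (1 + (Real.cosh (a j) - 1) / ((L : ℝ) + 1)) := by
  simp_rw [Real.exp_sum]
  rw [sum_prod_om (fun j θ => Real.exp (a j * sg θ))]
  have h2 : ∀ j : Fin N, ∑ θ : Th L, Real.exp (a j * sg θ) =
      (2 * ((L : ℝ) + 1)) * (1 + (Real.cosh (a j) - 1) / ((L : ℝ) + 1)) := by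
    intro j
    rw [sum_sg (fun x => Real.exp (a j * x)), Real.cosh_eq]
    simp; field_simp; ring
  simp_rw [h2]
  rw [Finset.prod_mul_distrib]
  simp [MM]

lemma sum_cosh {N L : ℕ} (a : Fin N → ℝ) :
    ∑ ω : Om N L, Real.cosh (∑ j, a j * sg (ω j)) =
      MM N L * ∏ j, (1 + (Real.cosh (a j) - 1) / ((L : ℝ) + 1)) := by
  have h1 := sum_exp (L := L) a
  have h2 := sum_exp (L := L) (fun j => - a j)
  simp only [Real.cosh_neg, neg_mul, Finset.sum_neg_distrib] at h2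
  simp_rw [Real.cosh_eq (∑ j, a j * sg _)]
  rw [← Finset.sum_div, Finset.sum_add_distrib, h1, h2]; ring

lemma cosh_le {x : ℝ} (hx : |x| ≤ 1) : Real.cosh x - 1 ≤ x ^ 2 / 2 + x ^ 4 / 4 := by
  have h1 := Real.cosh_le_exp_half_sq x
  have h0 : x ^ 2 ≤ 1 := by
    have := sq_abs x
    nlinarith [abs_nonneg x]
  have h2 := Real.abs_exp_sub_one_sub_id_le (x := x ^ 2 / 2) (by
    rw [abs_of_nonneg (by positivity)]; linarith)
  have h3 := (abs_le.1 h2).2
  nlinarith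

lemma sum_rem {N L : ℕ} (a : Fin N → ℝ) {lam : ℝ} (hl1 : lam ≤ 1) (ha : ∑ j, a j ^ 2 ≤ 1)
    (hl : ∀ j, |a j| ≤ lam) :
    ∑ ω : Om N L, (Real.cosh (∑ j, a j * sg (ω j)) - 1 - (∑ j, a j * sg (ω j)) ^ 2 / 2) ≤
      DD N L * (lam ^ 2 + 1 / ((L : ℝ) + 1)) := by
  set μ : ℝ := 1 / ((L : ℝ) + 1) with hμ
  have hμ0 : 0 < μ := by positivity
  have hμ1 : μ ≤ 1 := by
    rw [hμ, div_le_one (by positivity)]; have : (0 : ℝ) ≤ L := by positivity
    linarith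
  set X : ℝ := ∑ j, (Real.cosh (a j) - 1) with hX
  set A : ℝ := ∑ j, a j ^ 2 with hA
  have hA0 : 0 ≤ A := Finset.sum_nonneg fun j _ => sq_nonneg _
  have hX0 : 0 ≤ X := Finset.sum_nonneg fun j _ => by linarith [Real.one_le_cosh (a j)]
  have hX1 : X ≤ A / 2 + lam ^ 2 * A / 4 := by
    rw [hX, hA, Finset.mul_sum, Finset.sum_div, Finset.sum_div, ← Finset.sum_add_distrib]
    refine Finset.sum_le_sum fun j _ => ?_
    have h1 := cosh_le ((hl j).trans hl1)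
    have h2 : a j ^ 2 ≤ lam ^ 2 := by
      rw [← sq_abs (a j)]; exact pow_le_pow_left₀ (abs_nonneg _) (hl j) 2
    nlinarith [sq_nonneg (a j)]
  have hl2 : lam ^ 2 * A ≤ 1 := by
    by_cases hN : N = 0
    · subst hN; simp [hA]
    · have h0 : 0 ≤ lam := (abs_nonneg _).trans (hl ⟨0, Nat.pos_of_ne_zero hN⟩)
      have : lam ^ 2 ≤ 1 := by nlinarith
      nlinarith [sq_nonneg lam]
  have hX2 : X ≤ 1 := by linarith
  have hP : ∏ j, (1 + (Real.cosh (a j) - 1) / ((L : ℝ) + 1)) ≤ Real.exp (μ * X) := by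
    rw [hX, Finset.mul_sum, Real.exp_sum]
    refine Finset.prod_le_prod (fun j _ => ?_) fun j _ => ?_
    · have : 0 ≤ Real.cosh (a j) - 1 := by linarith [Real.one_le_cosh (a j)]
      positivity
    · have := Real.add_one_le_exp (μ * (Real.cosh (a j) - 1))
      rw [hμ] at this ⊢
      rw [div_eq_mul_inv]
      simp only [one_div] at this ⊢
      linarith
  have hE : Real.exp (μ * X) ≤ 1 + μ * X + (μ * X) ^ 2 := by
    have h2 := Real.abs_exp_sub_one_sub_id_le (x := μ * X) (by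
      rw [abs_of_nonneg (by positivity)]; nlinarith)
    have h3 := (abs_le.1 h2).2
    linarith
  rw [Finset.sum_sub_distrib, Finset.sum_sub_distrib, sum_cosh, card_om, ← Finset.sum_div, sum_sq]
  have hM : DD N L = MM N L * μ := by rw [hμ, DD]; ring
  have hM0 := MM_pos N L
  have h5 : MM N L * ∏ j, (1 + (Real.cosh (a j) - 1) / ((L : ℝ) + 1)) ≤
      MM N L * (1 + μ * X + (μ * X) ^ 2) := mul_le_mul_of_nonneg_left (hP.trans hE) hM0.le
  have h6 : X + μ * X ^ 2 - A / 2 ≤ lam ^ 2 + μ := by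
    have : X ^ 2 ≤ 1 := by nlinarith
    nlinarith [sq_nonneg lam]
  rw [hM, ← hA]
  have h7 := mul_le_mul_of_nonneg_left h6 (mul_pos hM0 hμ0).le
  nlinarith

lemma rem_ge (x : ℝ) {m : ℕ} (hm : 2 ≤ m) :
    x ^ (2 * m) / ((2 * m).factorial : ℝ) ≤ Real.cosh x - 1 - x ^ 2 / 2 := by
  have h := sum_le_hasSum ({0, 1, m} : Finset ℕ) (fun n _ => by
    have : 0 ≤ x ^ (2 * n) := by rw [pow_mul]; positivity
    positivity) (Real.hasSum_cosh x)
  rw [Finset.sum_insert (by simp; omega), Finset.sum_insert (by simp; omega),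
    Finset.sum_singleton] at h
  simp [Nat.factorial] at h
  linarith

lemma pointwise {s t : ℝ} (hs : 2 ≤ s) (ht : 0 < t) :
    ∃ K : ℝ, 0 < K ∧ ∀ x : ℝ, |x| ^ s ≤ t ^ (s - 2) * x ^ 2 + K * (Real.cosh x - 1 - x ^ 2 / 2) := by
  set m := ⌈s⌉₊ with hm
  have hm1 : s ≤ m := Nat.le_ceil s
  have hm2 : 2 ≤ m := by
    have : (2 : ℝ) ≤ m := hs.trans hm1
    exact_mod_cast this
  refine ⟨((2 * m).factorial : ℝ) * t ^ (s - 2 * m), by positivity, fun x => ?_⟩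
  have hr := rem_ge x hm2
  have hx0 : 0 ≤ x ^ (2 * m) := by rw [pow_mul]; positivity
  have hr0 : 0 ≤ Real.cosh x - 1 - x ^ 2 / 2 := le_trans (by positivity) hr
  rcases le_total |x| t with h | h
  · have h1 : |x| ^ s = |x| ^ (s - 2) * x ^ 2 := by
      rw [← sq_abs x, ← Real.rpow_natCast, ← Real.rpow_add' (abs_nonneg x) (by push_cast; linarith)]
      congr 1; push_cast; ring
    have h2 : |x| ^ (s - 2) ≤ t ^ (s - 2) := Real.rpow_le_rpow (abs_nonneg x) h (by linarith)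
    have h3 : 0 ≤ ((2 * m).factorial : ℝ) * t ^ (s - 2 * m) * (Real.cosh x - 1 - x ^ 2 / 2) := by
      positivity
    rw [h1]
    nlinarith [sq_nonneg x]
  · have hxp : 0 < |x| := ht.trans_le h
    have h1 : |x| ^ s = |x| ^ (s - 2 * m) * x ^ (2 * m) := by
      rw [← (even_two_mul m).pow_abs x, ← Real.rpow_natCast, ← Real.rpow_add hxp]
      congr 1; push_cast; ring
    have h2 : |x| ^ (s - 2 * m) ≤ t ^ (s - 2 * m) :=
      Real.rpow_le_rpow_of_nonpos ht h (by have : (0 : ℝ) ≤ m := by positivity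
                                           linarith)
    have h3 : x ^ (2 * m) ≤ ((2 * m).factorial : ℝ) * (Real.cosh x - 1 - x ^ 2 / 2) := by
      rw [div_le_iff₀ (by positivity)] at hr; linarith
    have h4 : 0 ≤ t ^ (s - 2) * x ^ 2 := by positivity
    have h5 : 0 ≤ t ^ (s - 2 * (m : ℝ)) := by positivity
    rw [h1]
    calc |x| ^ (s - 2 * m) * x ^ (2 * m) ≤ t ^ (s - 2 * m) * x ^ (2 * m) :=
          mul_le_mul_of_nonneg_right h2 hx0
      _ ≤ t ^ (s - 2 * m) * (((2 * m).factorial : ℝ) * (Real.cosh x - 1 - x ^ 2 / 2)) :=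
          mul_le_mul_of_nonneg_left h3 h5
      _ ≤ _ := by nlinarith

/-- real moment bound for exponents at least two -/
lemma real_big {s t : ℝ} (hs : 2 ≤ s) (ht : 0 < t) :
    ∃ K : ℝ, 0 < K ∧ ∀ (N L : ℕ) (a : Fin N → ℝ) (lam : ℝ), lam ≤ 1 → ∑ j, a j ^ 2 ≤ 1 →
      (∀ j, |a j| ≤ lam) → ∑ ω : Om N L, |∑ j, a j * sg (ω j)| ^ s ≤
        DD N L * (t ^ (s - 2) + K * (lam ^ 2 + 1 / ((L : ℝ) + 1))) := by
  obtain ⟨K, hK, h⟩ := pointwise hs ht
  refine ⟨K, hK, fun N L a lam hl1 ha hl => ?_⟩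
  refine (Finset.sum_le_sum fun ω _ => h _).trans ?_
  rw [Finset.sum_add_distrib, ← Finset.mul_sum, ← Finset.mul_sum, sum_sq]
  have h1 := mul_le_mul_of_nonneg_left (sum_rem (L := L) a hl1 ha hl) hK.le
  have h2 : t ^ (s - 2) * (DD N L * ∑ j, a j ^ 2) ≤ t ^ (s - 2) * (DD N L * 1) :=
    mul_le_mul_of_nonneg_left (mul_le_mul_of_nonneg_left ha (DD_pos N L).le) (by positivity)
  nlinarith

/-- real moment bound for exponents at most two -/
lemma real_small {s : ℝ} (hs0 : 0 < s) (hs : s ≤ 2) (N L : ℕ) (a : Fin N → ℝ)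
    (ha : ∑ j, a j ^ 2 ≤ 1) :
    ∑ ω : Om N L, |∑ j, a j * sg (ω j)| ^ s ≤ DD N L * (L + 2) := by
  have h : ∀ x : ℝ, |x| ^ s ≤ 1 + x ^ 2 := by
    intro x
    rcases le_total |x| 1 with h | h
    · have := Real.rpow_le_one (abs_nonneg x) h hs0.le
      nlinarith [sq_nonneg x]
    · have := Real.rpow_le_rpow_of_exponent_le h hs
      rw [Real.rpow_two, sq_abs] at this
      linarith
  refine (Finset.sum_le_sum fun ω _ => h _).trans ?_
  rw [Finset.sum_add_distrib, card_om, sum_sq, MM_eq]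
  have := mul_le_mul_of_nonneg_left ha (DD_pos N L).le
  linarith

variable {𝕜 : Type*} [RCLike 𝕜]

lemma split_cx {N L : ℕ} (a : Fin N → 𝕜) {s B : ℝ} (hs0 : 0 < s)
    (h1 : ∑ ω : Om N L, |∑ j, RCLike.re (a j) * sg (ω j)| ^ s ≤ B)
    (h2 : ∑ ω : Om N L, |∑ j, RCLike.im (a j) * sg (ω j)| ^ s ≤ B) :
    ∑ ω : Om N L, ‖∑ j, a j * (sg (ω j) : 𝕜)‖ ^ s ≤ 2 ^ s * (2 * B) := by
  have h : ∀ ω : Om N L, ‖∑ j, a j * (sg (ω j) : 𝕜)‖ ^ s ≤
      2 ^ s * (|∑ j, RCLike.re (a j) * sg (ω j)| ^ s + |∑ j, RCLike.im (a j) * sg (ω j)| ^ s) := by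
    intro ω
    set g : 𝕜 := ∑ j, a j * (sg (ω j) : 𝕜) with hg
    have hre : RCLike.re g = ∑ j, RCLike.re (a j) * sg (ω j) := by
      rw [hg, map_sum]; simp
    have him : RCLike.im g = ∑ j, RCLike.im (a j) * sg (ω j) := by
      rw [hg, map_sum]; simp
    rw [← hre, ← him]
    have h3 : ‖g‖ ≤ |RCLike.re g| + |RCLike.im g| := by
      have h4 := RCLike.norm_sq_eq_def (K := 𝕜) (z := g)
      have h5 := abs_mul_abs_self (RCLike.re g)
      have h6 := abs_mul_abs_self (RCLike.im g)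
      have h7 := mul_nonneg (abs_nonneg (RCLike.re g)) (abs_nonneg (RCLike.im g))
      refine (abs_le_of_sq_le_sq' ?_ (by positivity)).2
      nlinarith
    have hp1 : 0 ≤ |RCLike.re g| ^ s := by positivity
    have hp2 : 0 ≤ |RCLike.im g| ^ s := by positivity
    have hp3 : (0 : ℝ) ≤ 2 ^ s := by positivity
    rcases le_total |RCLike.re g| |RCLike.im g| with h | h
    · have : ‖g‖ ^ s ≤ (2 * |RCLike.im g|) ^ s :=
        Real.rpow_le_rpow (norm_nonneg _) (by linarith) hs0.le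
      rw [Real.mul_rpow (by norm_num) (abs_nonneg _)] at this
      nlinarith
    · have : ‖g‖ ^ s ≤ (2 * |RCLike.re g|) ^ s :=
        Real.rpow_le_rpow (norm_nonneg _) (by linarith) hs0.le
      rw [Real.mul_rpow (by norm_num) (abs_nonneg _)] at this
      nlinarith
  refine (Finset.sum_le_sum fun ω _ => h ω).trans ?_
  rw [← Finset.mul_sum, Finset.sum_add_distrib]
  exact mul_le_mul_of_nonneg_left (by linarith) (by positivity)

lemma re_sq_le {N : ℕ} (a : Fin N → 𝕜) (ha : ∑ j, ‖a j‖ ^ 2 ≤ 1) :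
    ∑ j, RCLike.re (a j) ^ 2 ≤ 1 :=
  le_trans (Finset.sum_le_sum fun j _ => by
    rw [← sq_abs]; exact pow_le_pow_left₀ (abs_nonneg _) (RCLike.abs_re_le_norm _) 2) ha

lemma im_sq_le {N : ℕ} (a : Fin N → 𝕜) (ha : ∑ j, ‖a j‖ ^ 2 ≤ 1) :
    ∑ j, RCLike.im (a j) ^ 2 ≤ 1 :=
  le_trans (Finset.sum_le_sum fun j _ => by
    rw [← sq_abs]; exact pow_le_pow_left₀ (abs_nonneg _) (RCLike.abs_im_le_norm _) 2) ha

lemma cx_big {s t : ℝ} (hs : 2 ≤ s) (ht : 0 < t) :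
    ∃ K : ℝ, 0 < K ∧ ∀ (N L : ℕ) (a : Fin N → 𝕜) (lam : ℝ), lam ≤ 1 → ∑ j, ‖a j‖ ^ 2 ≤ 1 →
      (∀ j, ‖a j‖ ≤ lam) → ∑ ω : Om N L, ‖∑ j, a j * (sg (ω j) : 𝕜)‖ ^ s ≤
        2 ^ s * (2 * (DD N L * (t ^ (s - 2) + K * (lam ^ 2 + 1 / ((L : ℝ) + 1))))) := by
  obtain ⟨K, hK, h⟩ := real_big hs ht
  refine ⟨K, hK, fun N L a lam hl1 ha hl => split_cx a (by linarith) ?_ ?_⟩
  · exact h N L _ lam hl1 (re_sq_le a ha) fun j => (RCLike.abs_re_le_norm _).trans (hl j)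
  · exact h N L _ lam hl1 (im_sq_le a ha) fun j => (RCLike.abs_im_le_norm _).trans (hl j)

lemma norm_le_one_of {N : ℕ} (a : Fin N → 𝕜) (ha : ∑ j, ‖a j‖ ^ 2 ≤ 1) (j : Fin N) :
    ‖a j‖ ≤ 1 := by
  have h := Finset.single_le_sum (f := fun j => ‖a j‖ ^ 2) (fun j _ => sq_nonneg _)
    (Finset.mem_univ j)
  have h2 : ‖a j‖ ^ 2 ≤ 1 := h.trans ha
  nlinarith [norm_nonneg (a j)]

/-- uniform bound for exponents at least two -/
lemma bound_big {s : ℝ} (hs : 2 ≤ s) :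
    ∃ K : ℝ, 0 < K ∧ ∀ (N L : ℕ) (a : Fin N → 𝕜), ∑ j, ‖a j‖ ^ 2 ≤ 1 →
      ∑ ω : Om N L, ‖∑ j, a j * (sg (ω j) : 𝕜)‖ ^ s ≤ DD N L * K := by
  obtain ⟨K, hK, h⟩ := cx_big (𝕜 := 𝕜) hs one_pos
  refine ⟨2 ^ s * (2 * (1 + K * 2)), by positivity, fun N L a ha => ?_⟩
  refine (h N L a 1 le_rfl ha (norm_le_one_of a ha)).trans ?_
  have hμ1 : 1 / ((L : ℝ) + 1) ≤ 1 := by
    rw [div_le_one (by positivity)]; have : (0 : ℝ) ≤ L := by positivity
    linarith
  have hD := DD_pos N L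
  rw [Real.one_rpow]
  have h1 : 1 + K * (1 ^ 2 + 1 / ((L : ℝ) + 1)) ≤ 1 + K * 2 := by nlinarith
  calc (2 : ℝ) ^ s * (2 * (DD N L * (1 + K * (1 ^ 2 + 1 / ((L : ℝ) + 1))))) ≤
      2 ^ s * (2 * (DD N L * (1 + K * 2))) := by gcongr
    _ = _ := by ring

/-- bound for every exponent, depending on the support size -/
lemma bound_all {s : ℝ} (hs : 0 < s) :
    ∃ K : ℝ, 0 < K ∧ ∀ (N L : ℕ) (a : Fin N → 𝕜), ∑ j, ‖a j‖ ^ 2 ≤ 1 →
      ∑ ω : Om N L, ‖∑ j, a j * (sg (ω j) : 𝕜)‖ ^ s ≤ DD N L * (K * (L + 1)) := by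
  rcases le_total 2 s with h | h
  · obtain ⟨K, hK, h1⟩ := bound_big (𝕜 := 𝕜) h
    refine ⟨K, hK, fun N L a ha => (h1 N L a ha).trans ?_⟩
    have hD := DD_pos N L
    have : (0 : ℝ) ≤ L := by positivity
    gcongr
    nlinarith
  · refine ⟨2 ^ s * 4, by positivity, fun N L a ha => ?_⟩
    refine (split_cx a hs (real_small hs h N L _ (re_sq_le a ha))
      (real_small hs h N L _ (im_sq_le a ha))).trans ?_
    have hD := DD_pos N L
    have : (0 : ℝ) ≤ L := by positivity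
    calc (2 : ℝ) ^ s * (2 * (DD N L * (L + 2))) ≤ 2 ^ s * (2 * (DD N L * (2 * (L + 1)))) := by
          gcongr; linarith
      _ = _ := by ring

/-- smallness on flat vectors for exponents above two -/
lemma bound_flat {s : ℝ} (hs : 2 < s) {ε : ℝ} (hε : 0 < ε) :
    ∃ lam : ℝ, 0 < lam ∧ ∀ (N L : ℕ) (a : Fin N → 𝕜), 1 / ((L : ℝ) + 1) ≤ lam →
      ∑ j, ‖a j‖ ^ 2 ≤ 1 → (∀ j, ‖a j‖ ≤ lam) →
      ∑ ω : Om N L, ‖∑ j, a j * (sg (ω j) : 𝕜)‖ ^ s ≤ DD N L * ε := by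
  set δ : ℝ := ε / (2 ^ s * 4) with hδ
  have hδ0 : 0 < δ := by positivity
  set t : ℝ := δ ^ (1 / (s - 2)) with ht
  have ht0 : 0 < t := by positivity
  have ht1 : t ^ (s - 2) = δ := by
    rw [ht, ← Real.rpow_mul hδ0.le, one_div_mul_cancel (by linarith), Real.rpow_one]
  obtain ⟨K, hK, h⟩ := cx_big (𝕜 := 𝕜) hs.le ht0
  refine ⟨min 1 (δ / (2 * K)), by positivity, fun N L a hL ha hl => ?_⟩
  refine (h N L a _ (min_le_left _ _) ha hl).trans ?_
  set lam := min 1 (δ / (2 * K)) with hlam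
  have h0 : 0 < lam := by positivity
  have h1 : lam ≤ 1 := min_le_left _ _
  have h2 : lam ≤ δ / (2 * K) := min_le_right _ _
  rw [le_div_iff₀ (by positivity)] at h2
  have h3 : K * (lam ^ 2 + 1 / ((L : ℝ) + 1)) ≤ δ := by
    have : lam ^ 2 ≤ lam := by nlinarith
    nlinarith
  have hD := DD_pos N L
  rw [ht1]
  calc (2 : ℝ) ^ s * (2 * (DD N L * (δ + K * (lam ^ 2 + 1 / ((L : ℝ) + 1))))) ≤
      2 ^ s * (2 * (DD N L * (δ + δ))) := by gcongr
    _ = _ := by rw [hδ]; field_simp; ring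

end Pool.Agent.H996Z.FS
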